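import Pool.Agent.H43.KS.Stm
import Pool.Agent.H328.BZ.LQLE

/-! LTOUCH: the Landau operator at a touching point. -/

set_option autoImplicit false
set_option linter.all false

open MeasureTheory Metric Set Filter Topology
open scoped RealInnerProductSpace ENNReal

namespace Pool.Agent.H118.KS

open Pool.Agent.H821.BZ
open Pool.Agent.H43.KS
open Pool.Agent.H43.BZ (Rap QL aHess d2 S_LND S_LHES)
open Pool.Agent.H328.BZ (cont_d2 meas_r meas_aHess abs_aHess dist_le)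

theorem key {γ r v u μ : ℝ} (hγ1 : -2 < γ) (hγ2 : γ < 0) (hr : 0 ≤ r) (hv : 0 ≤ v) (hu : 0 ≤ u)
    (hμ : 1 ≤ μ) (hru : r ≤ v + u) :
    r ^ γ * (r ^ 2 * v ^ 2 / (μ ^ 2 + v ^ 2) ^ 2) ≤ 9 * (r ^ γ + μ ^ γ * (1 + u / μ) ^ 2) := by
  have hμ0 : 0 < μ := by linarith
  have hrγ : 0 ≤ r ^ γ := Real.rpow_nonneg hr _
  have hμγ : 0 < μ ^ γ := Real.rpow_pos_of_pos hμ0 _
  have hT : 0 ≤ μ ^ γ * (1 + u / μ) ^ 2 := by positivity
  have hD : 0 < (μ ^ 2 + v ^ 2) ^ 2 := by positivity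
  rcases le_or_gt u (2 * v) with h | h
  · have h1 : r ^ 2 * v ^ 2 / (μ ^ 2 + v ^ 2) ^ 2 ≤ 9 := by
      rw [div_le_iff₀ hD]
      have h2 : r ≤ 3 * v := by linarith
      have h3 : r ^ 2 ≤ (3 * v) ^ 2 := pow_le_pow_left₀ hr h2 2
      have h4 : 0 ≤ v ^ 2 := sq_nonneg v
      have h5 : 0 ≤ μ ^ 2 := sq_nonneg μ
      have h6 : r ^ 2 * v ^ 2 ≤ (3 * v) ^ 2 * v ^ 2 := mul_le_mul_of_nonneg_right h3 h4
      nlinarith [mul_nonneg h4 h5]
    have h7 := mul_le_mul_of_nonneg_left h1 hrγ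
    linarith
  · rcases hr.eq_or_lt with h0 | h0
    · rw [← h0]
      have h1 : (0 : ℝ) ^ γ * ((0 : ℝ) ^ 2 * v ^ 2 / (μ ^ 2 + v ^ 2) ^ 2) = 0 := by
        rw [Real.zero_rpow hγ2.ne]
        ring
      rw [h1]
      have h2 : (0 : ℝ) ≤ (0 : ℝ) ^ γ := Real.rpow_nonneg le_rfl _
      linarith
    · have h1 : v ^ 2 / (μ ^ 2 + v ^ 2) ^ 2 ≤ 1 / μ ^ 2 := by
        rw [div_le_div_iff₀ hD (by positivity)]
        have h4 : 0 ≤ v ^ 2 := sq_nonneg v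
        have h5 : 0 ≤ μ ^ 2 := sq_nonneg μ
        nlinarith [mul_nonneg h4 h5, mul_nonneg h4 h4, mul_nonneg h5 h5]
      have h2 : r ^ γ * (r ^ 2 * v ^ 2 / (μ ^ 2 + v ^ 2) ^ 2) ≤ r ^ γ * r ^ 2 * (1 / μ ^ 2) := by
        have h3 : 0 ≤ r ^ γ * r ^ 2 := by positivity
        have h4 := mul_le_mul_of_nonneg_left h1 h3
        refine le_trans (le_of_eq ?_) h4
        ring
      refine h2.trans ?_
      have h3 : r ^ γ * r ^ 2 * (1 / μ ^ 2) = μ ^ γ * (r / μ) ^ (γ + 2) := by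
        rw [Real.div_rpow hr hμ0.le, Real.rpow_add h0, Real.rpow_add hμ0, Real.rpow_two,
          Real.rpow_two]
        field_simp
      rw [h3]
      have h4 : 0 ≤ u / μ := by positivity
      have h5 : r / μ ≤ 3 / 2 * (1 + u / μ) := by
        have h6 : r ≤ 3 / 2 * u := by linarith
        have h7 : r / μ ≤ 3 / 2 * u / μ := by gcongr
        have h8 : 3 / 2 * u / μ = 3 / 2 * (u / μ) := by ring
        linarith
      have h6 : (r / μ) ^ (γ + 2) ≤ (3 / 2 * (1 + u / μ)) ^ (γ + 2) :=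
        Real.rpow_le_rpow (by positivity) h5 (by linarith)
      have h7 : (3 / 2 * (1 + u / μ)) ^ (γ + 2) ≤ (3 / 2 * (1 + u / μ)) ^ (2 : ℝ) :=
        Real.rpow_le_rpow_of_exponent_le (by linarith) (by linarith)
      rw [Real.rpow_two] at h7
      have h8 : μ ^ γ * (r / μ) ^ (γ + 2) ≤ μ ^ γ * (3 / 2 * (1 + u / μ)) ^ 2 :=
        mul_le_mul_of_nonneg_left (h6.trans h7) hμγ.le
      nlinarith

/-- the weight -/
noncomputable def W {d : ℕ} (γ μ : ℝ) (v w : V d) : ℝ :=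
  μ ^ γ * ((‖w - v‖ / μ) ^ γ + (1 + ‖w‖ / μ) ^ (2 : ℝ))

theorem W_eq {d : ℕ} {γ μ : ℝ} (hμ : 0 < μ) (v w : V d) :
    W γ μ v w = ‖v - w‖ ^ γ + μ ^ γ * (1 + ‖w‖ / μ) ^ 2 := by
  unfold W
  rw [Real.div_rpow (norm_nonneg _) hμ.le, Real.rpow_two, norm_sub_rev w v]
  have h1 : (0 : ℝ) < μ ^ γ := Real.rpow_pos_of_pos hμ _
  field_simp

theorem W_nonneg {d : ℕ} {γ μ : ℝ} (hμ : 0 < μ) (v w : V d) : 0 ≤ W γ μ v w := by
  unfold W
  have h1 : (0 : ℝ) < μ ^ γ := Real.rpow_pos_of_pos hμ _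
  positivity

theorem W_meas {d : ℕ} (γ μ : ℝ) (v : V d) : Measurable fun w : V d => W γ μ v w := by
  unfold W
  fun_prop

/-- finiteness of the moment -/
theorem momS_fin {d : ℕ} (hd : 2 ≤ d) {n : ℕ} (hn : (d : ℝ) + 6 ≤ 2 * n) {γ : ℝ} (hγ1 : -2 < γ)
    (hγ2 : γ < 0) {g : V d → ℝ} (hgm : Measurable g) {m μ : ℝ} (hm : 0 ≤ m) (hμ : 1 ≤ μ)
    (hle : ∀ y, g y ≤ m * φs n μ y) (v : V d) : momS γ γ 2 μ g v ≠ ⊤ := by
  have hd2 : (2 : ℝ) ≤ d := by exact_mod_cast hd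
  have hμ0 : 0 < μ := by linarith
  obtain ⟨K1, hK1, hmom⟩ := momB_all (d := d) (g := γ) (a := 2) hd hγ2.le (by linarith)
    (by norm_num) hn
  rw [momS_eq hμ0 γ γ 2 hgm v]
  have h1 := hmom (fun w => g (μ • w)) m hm (fun w => by
    have h2 := hle (μ • w)
    have h3 : φs n μ (μ • w) = φ n w := by
      unfold φs
      rw [smul_smul, inv_mul_cancel₀ hμ0.ne', one_smul]
    rwa [h3] at h2) (μ⁻¹ • v)
  refine ENNReal.mul_ne_top (ENNReal.mul_ne_top ENNReal.ofReal_ne_top ENNReal.ofReal_ne_top) ?_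
  exact ne_top_of_le_ne_top ENNReal.ofReal_ne_top h1

theorem LTOUCH (h1 : S_LND) (h2 : S_LHES) (h3 : S_LHS) : S_LTOUCH := by
  intro d hd n hn
  have hd2 : (2 : ℝ) ≤ d := by exact_mod_cast hd
  have hn0 : (0 : ℝ) ≤ n := Nat.cast_nonneg n
  refine ⟨36 * n * (n + 1) + d ^ 2, by positivity, fun γ hγ1 hγ2 g hg hg0 m μ hμ hle v hv => ?_⟩
  have hμ0 : 0 < μ := by linarith
  have hφ : 0 < φs n μ v := φs_pos n μ v
  have hm : 0 ≤ m := by
    have h4 := hg0 v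
    rw [hv] at h4
    exact nonneg_of_mul_nonneg_left h4 hφ
  have hgc : Continuous g := hg.1.continuous
  have hr0 : ∀ w : V d, 0 ≤ ‖v - w‖ ^ γ := fun w => Real.rpow_nonneg (norm_nonneg _) γ
  have hμγ : (0 : ℝ) < μ ^ γ := Real.rpow_pos_of_pos hμ0 _
  have hG0m : Measurable fun w : V d => g w * W γ μ v w := hgc.measurable.mul (W_meas γ μ v)
  have hGn : ∀ w : V d, 0 ≤ g w * W γ μ v w := fun w => mul_nonneg (hg0 w) (W_nonneg hμ0 v w)
  have hfin := momS_fin hd hn hγ1 hγ2 hgc.measurable hm hμ hle v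
  have hfin' : ∫⁻ w : V d, ENNReal.ofReal (g w * W γ μ v w) ≠ ⊤ := hfin
  have hG0 : Integrable fun w : V d => g w * W γ μ v w :=
    (lintegral_ofReal_ne_top_iff_integrable hG0m.aestronglyMeasurable
      (Eventually.of_forall hGn)).1 hfin'
  have hval : ∫ w : V d, g w * W γ μ v w = (momS γ γ 2 μ g v).toReal :=
    integral_eq_lintegral_of_nonneg_ae (Eventually.of_forall hGn) hG0m.aestronglyMeasurable
  have dom : ∀ (f : V d → ℝ) (K : ℝ), Measurable f → (∀ w, |f w| ≤ K * W γ μ v w) →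
      Integrable (fun w => g w * f w) := by
    intro f K hf hb
    refine (hG0.const_mul K).mono' (hgc.measurable.mul hf).aestronglyMeasurable
      (Eventually.of_forall fun w => ?_)
    rw [Real.norm_eq_abs, abs_mul, abs_of_nonneg (hg0 w)]
    refine (mul_le_mul_of_nonneg_left (hb w) (hg0 w)).trans (le_of_eq ?_)
    ring
  -- the growth of the kernel
  have hgrow : ∀ w : V d, ‖v - w‖ ^ γ * ‖v - w‖ ^ 2 ≤
      (1 + (1 + ‖v‖) ^ 2 * (μ ^ 2 * (μ ^ γ)⁻¹)) * W γ μ v w := by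
    intro w
    have hT : 0 ≤ μ ^ γ * (1 + ‖w‖ / μ) ^ 2 := by positivity
    have hK : 0 ≤ (1 + ‖v‖) ^ 2 * (μ ^ 2 * (μ ^ γ)⁻¹) := by positivity
    have hWr : ‖v - w‖ ^ γ ≤ W γ μ v w := by
      rw [W_eq hμ0]
      linarith
    have hWT : μ ^ γ * (1 + ‖w‖ / μ) ^ 2 ≤ W γ μ v w := by
      rw [W_eq hμ0]
      linarith [hr0 w]
    rcases le_or_gt ‖v - w‖ 1 with h | h
    · have h5 : ‖v - w‖ ^ 2 ≤ 1 := pow_le_one₀ (norm_nonneg _) h
      have h6 : ‖v - w‖ ^ γ * ‖v - w‖ ^ 2 ≤ ‖v - w‖ ^ γ := mul_le_of_le_one_right (hr0 w) h5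
      have h7 : W γ μ v w ≤ (1 + (1 + ‖v‖) ^ 2 * (μ ^ 2 * (μ ^ γ)⁻¹)) * W γ μ v w :=
        le_mul_of_one_le_left (W_nonneg hμ0 v w) (by linarith)
      linarith
    · have h5 : ‖v - w‖ ^ γ ≤ 1 := Real.rpow_le_one_of_one_le_of_nonpos h.le hγ2.le
      have h6 : ‖v - w‖ ^ γ * ‖v - w‖ ^ 2 ≤ ‖v - w‖ ^ 2 := mul_le_of_le_one_left (sq_nonneg _) h5
      have h7 := dist_le v w
      have h8 : (1 + ‖w‖) ^ 2 ≤ μ ^ 2 * (μ ^ γ)⁻¹ * (μ ^ γ * (1 + ‖w‖ / μ) ^ 2) := by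
        have h9 : μ ^ 2 * (μ ^ γ)⁻¹ * (μ ^ γ * (1 + ‖w‖ / μ) ^ 2) = (μ + ‖w‖) ^ 2 := by
          field_simp
        rw [h9]
        have h10 := norm_nonneg w
        exact pow_le_pow_left₀ (by linarith) (by linarith) 2
      have h9 : (1 + ‖v‖) ^ 2 * (1 + ‖w‖) ^ 2 ≤
          (1 + ‖v‖) ^ 2 * (μ ^ 2 * (μ ^ γ)⁻¹) * (μ ^ γ * (1 + ‖w‖ / μ) ^ 2) := by
        have h10 := mul_le_mul_of_nonneg_left h8 (sq_nonneg (1 + ‖v‖))
        refine h10.trans (le_of_eq ?_)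
        ring
      have h10 := mul_le_mul_of_nonneg_left hWT hK
      have h11 := W_nonneg (γ := γ) hμ0 v w
      linarith
  have intH : ∀ h : V d → ℝ, Integrable (fun w => g w * aHess γ h v (v - w)) := by
    intro h
    have h6 : 0 ≤ (|∑ i : Fin d, d2 h v (EuclideanSpace.single i 1)| +
      ‖fderiv ℝ (fderiv ℝ h) v‖) := by positivity
    refine dom _ ((|∑ i : Fin d, d2 h v (EuclideanSpace.single i 1)| +
      ‖fderiv ℝ (fderiv ℝ h) v‖) * (1 + (1 + ‖v‖) ^ 2 * (μ ^ 2 * (μ ^ γ)⁻¹)))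
      (meas_aHess γ h v) fun w => ?_
    refine (abs_aHess γ h v (v - w)).trans ?_
    have h7 := mul_le_mul_of_nonneg_left (hgrow w) h6
    refine le_trans (le_of_eq ?_) (h7.trans (le_of_eq ?_))
    · ring
    · ring
  have intR : Integrable (fun w => g w * ‖v - w‖ ^ γ) := by
    refine dom _ 1 (meas_r γ v) fun w => ?_
    rw [abs_of_nonneg (hr0 w), one_mul, W_eq hμ0]
    have hT : 0 ≤ μ ^ γ * (1 + ‖w‖ / μ) ^ 2 := by positivity
    linarith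
  -- the comparison
  obtain ⟨hPc, hPf⟩ := h3 d hd γ m μ n hm hμ0
  have hgv := hg0 v
  have step1 : ∫ w, g w * aHess γ g v (v - w) ≤
      ∫ w, g w * aHess γ (fun y => m * φs n μ y) v (v - w) := by
    refine integral_mono (intH g) (intH _) fun w => ?_
    exact mul_le_mul_of_nonneg_left
      (h2 d hd γ g (fun y => m * φs n μ y) hg.1 hPc v hle hv (v - w)) (hg0 w)
  have step2 : (∫ w, g w * aHess γ (fun y => m * φs n μ y) v (v - w)) +
      ((d : ℝ) - 1) * (d + γ) * g v * ∫ w, g w * ‖v - w‖ ^ γ ≤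
      (36 * n * (n + 1) + d ^ 2) * g v * ∫ w, g w * W γ μ v w := by
    rw [← integral_const_mul, ← integral_const_mul, ← integral_add (intH _) (intR.const_mul _)]
    refine integral_mono ((intH _).add (intR.const_mul _)) (hG0.const_mul _) fun w => ?_
    change g w * aHess γ (fun y => m * φs n μ y) v (v - w) +
      ((d : ℝ) - 1) * (d + γ) * g v * (g w * ‖v - w‖ ^ γ) ≤
      (36 * n * (n + 1) + d ^ 2) * g v * (g w * W γ μ v w)
    have h4 := hPf v (v - w)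
    rw [← hv] at h4
    have h5 := key hγ1 hγ2 (norm_nonneg (v - w)) (norm_nonneg v) (norm_nonneg w) hμ
      (norm_sub_le v w)
    rw [← W_eq hμ0] at h5
    have h6 : g v * (‖v - w‖ ^ γ * (4 * n * (n + 1) *
        (‖v - w‖ ^ 2 * ‖v‖ ^ 2 / (μ ^ 2 + ‖v‖ ^ 2) ^ 2))) ≤
        g v * (4 * n * (n + 1) * (9 * W γ μ v w)) := by
      refine mul_le_mul_of_nonneg_left ?_ hgv
      have h7 : (0 : ℝ) ≤ 4 * n * (n + 1) := by positivity
      have h8 := mul_le_mul_of_nonneg_left h5 h7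
      refine le_trans (le_of_eq ?_) h8
      ring
    have h7 := mul_le_mul_of_nonneg_left (h4.trans h6) (hg0 w)
    have h8 : ((d : ℝ) - 1) * (d + γ) ≤ d ^ 2 := by nlinarith
    have h9 : ‖v - w‖ ^ γ ≤ W γ μ v w := by
      rw [W_eq hμ0]
      have hT : 0 ≤ μ ^ γ * (1 + ‖w‖ / μ) ^ 2 := by positivity
      linarith
    have h10 : ((d : ℝ) - 1) * (d + γ) * g v * (g w * ‖v - w‖ ^ γ) ≤
        (d : ℝ) ^ 2 * g v * (g w * W γ μ v w) := by
      have h11 : 0 ≤ g v * (g w * ‖v - w‖ ^ γ) := mul_nonneg hgv (mul_nonneg (hg0 w) (hr0 w))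
      have h12 := mul_le_mul_of_nonneg_right h8 h11
      have h13 : g v * (g w * ‖v - w‖ ^ γ) ≤ g v * (g w * W γ μ v w) :=
        mul_le_mul_of_nonneg_left (mul_le_mul_of_nonneg_left h9 (hg0 w)) hgv
      have h14 := mul_le_mul_of_nonneg_left h13 (sq_nonneg (d : ℝ))
      nlinarith
    refine (add_le_add h7 h10).trans (le_of_eq ?_)
    ring
  rw [h1 d hd γ hγ1 hγ2 g hg v, ← hval]
  exact (add_le_add step1 le_rfl).trans step2

end Pool.Agent.H118.KS
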